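import Pool.Agent.helper12.DD.Spec2

/-!
# Stage 2: assembly
-/

set_option autoImplicit false

open Pool.Agent.helper49.Blk

namespace Pool.Agent.DD

theorem ASM_fin (G Q : Type) [Group G] [Finite G] [Group Q] [Finite Q] : Finite (Wr G Q) :=
  Finite.of_injective (fun x : Wr G Q => (x.left, x.right)) (fun x y h => by
    have h1 : x.left = y.left := congrArg Prod.fst h
    have h2 : x.right = y.right := congrArg Prod.snd h
    exact SemidirectProduct.ext h1 h2)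

theorem ASM_defc {G : Type} [Group G] (p : ℕ) (χ : G → ℂ) (n : ℕ) (h1 : χ 1 = n)
    (h2 : padicValNat p n < padicValNat p (Nat.card G)) :
    ∃ d₀, 1 ≤ d₀ ∧ Defc p χ d₀ :=
  ⟨padicValNat p (Nat.card G) - padicValNat p n, by omega, n, h1, by omega⟩

theorem ASM_pos {G : Type} [Group G] (p : ℕ) (M : Ideal (integralClosure ℤ ℂ)) (χ : G → ℂ)
    (hχ : χ ∈ Irr G) (d₀ : ℕ) (h : 1 ≤ d₀) (h2 : Defc p χ d₀) :
    HasPositiveDefect p {ψ | ψ ∈ Irr G ∧ SameBlock M χ ψ} := by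
  obtain ⟨m, hm, hm2⟩ := h2
  exact ⟨χ, ⟨hχ, fun g => ⟨0, M.zero_mem, by simp⟩⟩, m, hm, by omega⟩

/-- A case from raw data. -/
def ASM_mk {G E : Type} [Group G] [Finite G] [Group E] {p : ℕ} {M : Ideal (integralClosure ℤ ℂ)}
    (ι : G →* E) (hi : Function.Injective ι) (hn : ι.range.Normal)
    (hop : IsOp p (⊤ : Subgroup G) ⊥) (χ : G → ℂ) (hχ : χ ∈ Irr G)
    (hp : HasPositiveDefect p {ψ | ψ ∈ Irr G ∧ SameBlock M χ ψ}) (U : Subgroup E) : Case p M where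
  G := G
  E := E
  ι := ι
  inj := hi
  nor := hn
  op := hop
  χ := χ
  irr := hχ
  pos := hp
  U := U

/-- The values `0, 1, -1`. -/
theorem ASM_val {p : ℕ} {M : Ideal (integralClosure ℤ ℂ)}
    (H : ∀ X : Case p M, (∀ d, X.alt d = 0) ∨ X.Single) (X : Case p M) (d : ℕ) :
    X.alt d = 0 ∨ X.alt d = 1 ∨ X.alt d = -1 := by
  rcases H X with h | ⟨a, ha, h⟩
  · exact Or.inl (h d)
  · by_cases hd : d = a
    · rw [hd]
      exact Or.inr ha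
    · exact Or.inl (h d hd)

/-- The arithmetic at the end. -/
theorem ASM_arith (q : ℕ) (hq : 2 ≤ q) (u v w e : ℤ) (he : e = 1 ∨ e = -1)
    (hu : u = 0 ∨ u = 1 ∨ u = -1) (hv : v = 0 ∨ v = 1 ∨ v = -1) (hw : w = 0 ∨ w = 1 ∨ w = -1)
    (h1 : u + v = e) (h2 : (w : ℚ) = q * u + 1 / q * v) : False := by
  have hq0 : (q : ℚ) ≠ 0 := by
    have : q ≠ 0 := by omega
    exact_mod_cast this
  have h3 : (q : ℚ) * w = q * q * u + v := by
    rw [h2]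
    field_simp
  have h4 : (q : ℤ) * w = q * q * u + v := by exact_mod_cast h3
  have hq2 : (2 : ℤ) ≤ q := by exact_mod_cast hq
  rcases he with he | he <;> rcases hu with hu | hu | hu <;> rcases hv with hv | hv | hv <;>
    rcases hw with hw | hw | hw <;> subst hu hv hw <;> first | omega | nlinarith

theorem ASM_poly {p : ℕ} {M : Ideal (integralClosure ℤ ℂ)} [Fact p.Prime] (Y : Case p M) (a : ℕ)
    (ha : Y.alt a = 1 ∨ Y.alt a = -1) (h : ∀ d, d ≠ a → Y.alt d = 0) (q : ℕ) :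
    (Y.poly ^ q).coeff (q * a) = 1 ∨ (Y.poly ^ q).coeff (q * a) = -1 := by
  have hP : Y.poly = Polynomial.C (Y.alt a) * Polynomial.X ^ a := by
    ext d
    rw [Y.poly_coeff, Polynomial.coeff_C_mul, Polynomial.coeff_X_pow]
    by_cases hd : d = a
    · rw [hd]
      simp
    · rw [h d hd]
      simp [hd]
  have h2 : (Y.poly ^ q).coeff (q * a) = Y.alt a ^ q := by
    rw [hP, mul_pow, ← Polynomial.C_pow, ← pow_mul, Polynomial.coeff_C_mul, mul_comm a q,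
      Polynomial.coeff_X_pow]
    simp
  rw [h2]
  rcases ha with ha | ha
  · left
    rw [ha, one_pow]
  · rw [ha]
    rcases Nat.even_or_odd q with h3 | h3
    · left
      exact h3.neg_one_pow
    · right
      exact h3.neg_one_pow

theorem ASM (hFNE : FNE_stmt) (hMXU : MXU_stmt) (hBLC : BLC_stmt) (hAL0 : AL0_stmt)
    (hTOP : TOP_stmt) (hPWR : PWR_stmt) (hTOW : TOW_stmt) (hPWF : PWF_stmt) (hCHQ : CHQ_stmt)
    (hIQA : IQA_stmt) (hBHH : BHH_stmt) (hEXC : EXC_stmt)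
    (p : ℕ) (hp : p.Prime) (M : Ideal (integralClosure ℤ ℂ)) (hM : M.IsMaximal)
    (hpM : (p : integralClosure ℤ ℂ) ∈ M)
    (H : ∀ X : Case p M, (∀ d, X.alt d = 0) ∨ X.Single) (X : Case p M) (d : ℕ) :
    X.alt d = 0 := by
  have : Fact p.Prime := ⟨hp⟩
  by_contra hX
  have h1 : altQ p M X.ι X.χ d X.U ≠ 0 := by
    rw [← X.alt_eq d]
    exact_mod_cast hX
  -- finite `E`
  obtain ⟨E', _, _, ι', U', hi', hn', hE'⟩ :=
    hFNE X.G X.E X.ι X.inj X.nor p M X.χ X.U ⟨d, h1⟩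
  -- `U = E`
  obtain ⟨U₁, hU₁, d₁, h2⟩ := hMXU X.G E' ι' hi' hn' p M X.χ ⟨U', d, by rw [hE' d]; exact h1⟩
  set ι₁ : X.G →* U₁ := ι'.codRestrict U₁ hU₁ with hι₁
  have hi₁ : Function.Injective ι₁ := by
    intro x y hxy
    exact hi' (congrArg Subtype.val hxy)
  have hn₁ : ι₁.range.Normal := by
    constructor
    rintro _ ⟨x, rfl⟩ g
    obtain ⟨y, hy⟩ := hn'.conj_mem _ ⟨x, rfl⟩ (g : E')
    exact ⟨y, Subtype.ext hy⟩
  -- a member of positive defect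
  obtain ⟨χ₁, ⟨hχ₁, hB⟩, n, hn, hnp⟩ := X.pos
  obtain ⟨d₀, hd₀, hdef⟩ := ASM_defc p χ₁ n hn hnp
  have h3 : altQ p M ι₁ χ₁ d₁ ⊤ ≠ 0 := by
    rw [← hBLC X.G U₁ ι₁ p M X.χ χ₁ hB]
    exact h2
  have hpos₁ := ASM_pos p M χ₁ hχ₁ d₀ hd₀ hdef
  let Y : Case p M := ASM_mk ι₁ hi₁ hn₁ X.op χ₁ hχ₁ hpos₁ ⊤
  have hY1 : Y.alt d₁ ≠ 0 := by
    intro h0
    apply h3
    have := Y.alt_eq d₁
    rw [h0] at this
    exact_mod_cast this.symm
  have hYS : Y.Single := by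
    rcases H Y with h | h
    · exact absurd (h d₁) hY1
    · exact h
  obtain ⟨a, ha, hYa⟩ := hYS
  have ha0 : a ≠ 0 := by
    rintro rfl
    have h0 := hAL0 p hp M hM hpM X.G U₁ ι₁ X.op χ₁ hχ₁ hpos₁ ⊤
    have h4 := Y.alt_eq 0
    have h5 : (Y.alt 0 : ℚ) = 0 := h4.trans h0
    have h6 : Y.alt 0 = 0 := by exact_mod_cast h5
    rcases ha with ha | ha <;> omega
  -- the prime `q`
  obtain ⟨q, hqge, hq⟩ :=
    Nat.exists_infinite_primes (Nat.card U₁ + p + padicValNat p (Nat.card X.G) + 1)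
  have : Fact q.Prime := ⟨hq⟩
  have : NeZero q := ⟨hq.ne_zero⟩
  let Q : Type := Multiplicative (ZMod q)
  have hQc : Nat.card Q = q := by
    change Nat.card (Multiplicative (ZMod q)) = q
    rw [Nat.card_congr Multiplicative.toAdd, Nat.card_zmod]
  have hQp : (Nat.card Q).Prime := by rw [hQc]; exact hq
  have hfW : Finite (Wr X.G Q) := ASM_fin X.G Q
  have hUc : 0 < Nat.card U₁ := Nat.card_pos
  have hcop : Nat.Coprime (Nat.card Q) (Nat.card U₁) := by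
    rw [hQc]
    exact (Nat.Prime.coprime_iff_not_dvd hq).2 (Nat.not_dvd_of_pos_of_lt hUc (by omega))
  have hqp : Nat.card Q ≠ p := by rw [hQc]; omega
  have hvp : padicValNat p (Nat.card X.G) < Nat.card Q := by rw [hQc]; omega
  have hqp' : q ≠ p := by omega
  obtain ⟨hirrK, hdefK, χ', hχ', hres, hdefW⟩ := hEXC p hp X.G Q hQp hqp χ₁ hχ₁
  have htow := hTOW X.G U₁ ι₁ hn₁ hi₁ Q hQp hcop
  have hq2 : 2 ≤ q := hq.two_le
  have hqd : 1 ≤ Nat.card Q * d₀ := by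
    rw [hQc]
    nlinarith
  -- the cases
  have hKinj : Function.Injective ((wι ι₁ hn₁ Q).comp (κι X.G Q)) :=
    htow.ωinj.comp htow.κinj
  let K1 : Case p M := ASM_mk ((wι ι₁ hn₁ Q).comp (κι X.G Q)) hKinj htow.ωκnor
    (hTOP X.G Q p X.op) (tpow Q χ₁) hirrK (ASM_pos p M _ hirrK _ hqd (hdefK d₀ hdef)) ⊤
  let K2 : Case p M := ASM_mk ((wι ι₁ hn₁ Q).comp (κι X.G Q)) hKinj htow.ωκnor
    (hTOP X.G Q p X.op) (tpow Q χ₁) hirrK (ASM_pos p M _ hirrK _ hqd (hdefK d₀ hdef))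
    (V0 ι₁ hn₁ Q)
  have hopW : IsOp p (⊤ : Subgroup (Wr X.G Q)) ⊥ := by
    refine ((hCHQ p (Nat.card Q) hp hQp hqp (Q → X.G) (Wr X.G Q) (κι X.G Q) htow.κinj htow.κnor
      htow.card).1 ⊤ ⊥).2 ⟨⊥, ?_, ?_⟩
    · rw [Subgroup.map_bot]
    · rw [Subgroup.comap_top]
      exact hTOP X.G Q p X.op
  let W1 : Case p M := ASM_mk (wι ι₁ hn₁ Q) htow.ωinj htow.ωnor hopW χ' hχ'
    (ASM_pos p M _ hχ' _ hqd (hdefW d₀ hdef)) ⊤
  -- the formulas for `d = q a`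
  have hqd1 : Nat.card Q ≤ Nat.card Q * d₀ := Nat.le_mul_of_pos_right _ hd₀
  have hqd2 : Nat.card Q ≤ Nat.card Q * a := Nat.le_mul_of_pos_right _ (Nat.pos_of_ne_zero ha0)
  have f1 : altQ p M (wι ι₁ hn₁ Q) χ' (Nat.card Q * a) ⊤ =
      (Nat.card Q : ℚ) * altQ p M ((wι ι₁ hn₁ Q).comp (κι X.G Q)) (tpow Q χ₁) (Nat.card Q * a) ⊤ +
      1 / (Nat.card Q : ℚ) *
        altQ p M ((wι ι₁ hn₁ Q).comp (κι X.G Q)) (tpow Q χ₁) (Nat.card Q * a) (V0 ι₁ hn₁ Q) :=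
    hIQA p (Nat.card Q) (Nat.card U₁) hp hQp hqp hcop (Q → X.G) (Wr X.G Q) (WE ι₁ hn₁ Q)
      (κι X.G Q) (wι ι₁ hn₁ Q) (V0 ι₁ hn₁ Q) htow M (tpow Q χ₁) χ' (Nat.card Q * a)
      (fun C hC φ hφ ψ hψ hdφ hov => hBHH p hp M hM hpM X.G Q hQp hqp hvp χ₁ hχ₁ χ' hχ' hres
        (Nat.card Q * d₀) (hdefW d₀ hdef) hqd1 (Nat.card Q * a) hqd2 C hC φ hφ ψ hψ hdφ hov)
  have f2 := hPWF p hp M X.G U₁ ι₁ hn₁ hi₁ Q hQp hcop χ₁ (Nat.card Q * a)
  have hcard : Fintype.card Q = (q - 1) + 1 := by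
    rw [← Nat.card_eq_fintype_card, hQc]
    omega
  have f3 := hPWR p M Y rfl (q - 1) Q hcard (Nat.card Q * a)
  have hYpoly := ASM_poly Y a ha hYa q
  have e1 : q - 1 + 1 = q := by omega
  rw [e1, hQc] at f3
  rw [hQc] at f1 f2
  have g1 := K1.alt_eq (q * a)
  have g2 := K2.alt_eq (q * a)
  have g3 := W1.alt_eq (q * a)
  have k1 : ((K1.alt (q * a) + K2.alt (q * a) : ℤ) : ℚ) = ((Y.poly ^ q).coeff (q * a) : ℚ) := by
    push_cast
    rw [g1, g2]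
    exact f2.trans f3
  have k1' : K1.alt (q * a) + K2.alt (q * a) = (Y.poly ^ q).coeff (q * a) := by exact_mod_cast k1
  have k2 : (W1.alt (q * a) : ℚ) = q * (K1.alt (q * a) : ℚ) + 1 / q * (K2.alt (q * a) : ℚ) := by
    rw [g1, g2, g3]
    exact f1
  exact ASM_arith q hq2 _ _ _ _ hYpoly (ASM_val H K1 _) (ASM_val H K2 _) (ASM_val H W1 _) k1' k2

end Pool.Agent.DD
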