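import Pool.Agent.helper12.DW.ASM
import Pool.Agent.helper12.DD.Main

/-!
# Stage 2: the growth criterion
-/

set_option autoImplicit false

open Pool.Agent.helper49.Blk

namespace Pool.Agent.DD

theorem fin_growth (D n : ℕ) (hD : 0 < D) : ∃ c : ℝ, 0 < c ∧ ∃ m₀ : ℕ, ∀ m : ℕ, m₀ ≤ m →
    Real.exp (c * (2 * m * D)) * (2 * m * n + 1) ≤ 2 ^ (m - 1) := by
  have hD' : (0 : ℝ) < D := by exact_mod_cast hD
  have hl2 : 0 < Real.log 2 := Real.log_pos (by norm_num)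
  refine ⟨Real.log 2 / (4 * D), by positivity, ?_⟩
  have hs : (1 : ℝ) < Real.sqrt 2 := by
    rw [Real.lt_sqrt (by norm_num)]
    norm_num
  have ht := tendsto_pow_const_div_const_pow_of_one_lt 1 hs
  have hev : ∀ᶠ k : ℕ in Filter.atTop, (k : ℝ) ^ 1 / Real.sqrt 2 ^ k < 1 / (2 * (2 * n + 1)) :=
    ht.eventually (gt_mem_nhds (by positivity))
  obtain ⟨m₀, hm₀⟩ := (hev.and (Filter.eventually_ge_atTop 1)).exists_forall_of_atTop
  refine ⟨m₀, fun m hm => ?_⟩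
  obtain ⟨h1, h2⟩ := hm₀ m hm
  have hm1 : (1 : ℝ) ≤ m := by exact_mod_cast h2
  have hsm : (0 : ℝ) < Real.sqrt 2 ^ m := by positivity
  have h3 : (m : ℝ) * (2 * (2 * n + 1)) < Real.sqrt 2 ^ m := by
    rw [pow_one, div_lt_div_iff₀ hsm (by positivity), one_mul] at h1
    exact h1
  have h4 : Real.exp (Real.log 2 / (4 * D) * (2 * m * D)) = Real.sqrt 2 ^ m := by
    have e : Real.log 2 / (4 * D) * (2 * m * D) = m * (Real.log 2 / 2) := by
      field_simp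
      ring
    rw [e, Real.exp_nat_mul]
    congr 1
    rw [Real.sqrt_eq_rpow, Real.rpow_def_of_pos (by norm_num)]
    congr 1
    ring
  rw [h4]
  have h5 : (2 : ℝ) ^ (m - 1) * 2 = Real.sqrt 2 ^ m * Real.sqrt 2 ^ m := by
    rw [← pow_succ, Nat.sub_add_cancel h2, ← mul_pow, Real.mul_self_sqrt (by norm_num)]
  have h6 : (2 * (m : ℝ) * n + 1) * 2 ≤ Real.sqrt 2 ^ m := by
    have h7 : (0 : ℝ) ≤ n := Nat.cast_nonneg n
    nlinarith
  have h8 : Real.sqrt 2 ^ m * ((2 * (m : ℝ) * n + 1) * 2) ≤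
      Real.sqrt 2 ^ m * Real.sqrt 2 ^ m := mul_le_mul_of_nonneg_left h6 hsm.le
  nlinarith

/-- A failure of Dade's conjecture gives exponential growth at all multiples of some defect. -/
theorem fin_fail {p : ℕ} {M : Ideal (integralClosure ℤ ℂ)} [Fact p.Prime] (X : Case p M)
    (h0 : ∃ d, X.alt d ≠ 0) (hS : ¬ X.Single) : ∃ c : ℝ, 0 < c ∧ ∃ D : ℕ, 0 < D ∧
    ∀ k : ℕ, 0 < k → ∃ (Y : Case p M) (d : ℕ), Y.defect = k * D ∧
      Real.exp (c * Y.defect) ≤ Y.alt d := by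
  obtain ⟨c, hc, m₀, hm₀⟩ := fin_growth X.defect X.vp X.defect_pos
  refine ⟨c, hc, 2 * (m₀ + 1) * X.defect, ?_, fun k hk => ?_⟩
  · have := X.defect_pos
    positivity
  · have hm : 1 ≤ k * (m₀ + 1) := Nat.mul_pos hk (by omega)
    have hm' : m₀ ≤ k * (m₀ + 1) := by nlinarith
    obtain ⟨d, hd⟩ := main_amplify X h0 hS (k * (m₀ + 1)) hm
    have hdef : (X.pw (2 * (k * (m₀ + 1)) - 1)).defect = 2 * (k * (m₀ + 1)) * X.defect := by
      rw [X.defect_pw]
      have : 2 * (k * (m₀ + 1)) - 1 + 1 = 2 * (k * (m₀ + 1)) := by omega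
      rw [this]
    refine ⟨X.pw (2 * (k * (m₀ + 1)) - 1), d, ?_, ?_⟩
    · rw [hdef]
      ring
    · have hexp := hm₀ (k * (m₀ + 1)) hm'
      have e : ((X.pw (2 * (k * (m₀ + 1)) - 1)).defect : ℝ) =
          2 * ((k * (m₀ + 1) : ℕ) : ℝ) * X.defect := by
        rw [hdef]
        push_cast
        ring
      rw [e]
      have hd' : (2 : ℝ) ^ (k * (m₀ + 1) - 1) ≤ (2 * ((k * (m₀ + 1) : ℕ) : ℝ) * X.vp + 1) *
          ((X.pw (2 * (k * (m₀ + 1)) - 1)).alt d : ℝ) := by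
        exact_mod_cast hd
      have hpos : (0 : ℝ) < 2 * ((k * (m₀ + 1) : ℕ) : ℝ) * X.vp + 1 := by positivity
      have h1 := hexp.trans hd'
      rw [mul_comm] at h1
      exact le_of_mul_le_mul_left h1 hpos

/-- The criterion, from the statement of `ASM`. -/
theorem fin_iff {p : ℕ} {M : Ideal (integralClosure ℤ ℂ)} [Fact p.Prime]
    (hA : (∀ X : Case p M, (∀ d, X.alt d = 0) ∨ X.Single) → ∀ (X : Case p M) (d : ℕ),
      X.alt d = 0) :
    Dade p M ↔ ∀ c : ℝ, 0 < c → ∀ D : ℕ, 0 < D → ∃ k : ℕ, 0 < k ∧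
      ∀ (X : Case p M) (T : Finset (List (Subgroup X.G))), Trans p T → ∀ d : ℕ,
        X.defect = k * D → (altT p M X.ι X.χ T d X.U : ℝ) < Real.exp (c * X.defect) := by
  constructor
  · intro h c _ D _
    refine ⟨1, one_pos, fun X T hT d _ => ?_⟩
    rw [h X T hT d]
    simpa using Real.exp_pos _
  · intro h
    rw [main_dade]
    apply hA
    intro X
    by_contra hX
    rw [not_or] at hX
    obtain ⟨h0, hS⟩ := hX
    push Not at h0
    obtain ⟨c, hc, D, hD, hg⟩ := fin_fail X h0 hS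
    obtain ⟨k, hk, hb⟩ := h c hc D hD
    obtain ⟨Y, d, hY, hexp⟩ := hg k hk
    obtain ⟨T, hT⟩ := all_TRE Y.G p
    have h1 := hb Y T hT d hY
    rw [Y.alt_indep T hT] at h1
    exact absurd h1 (not_lt.2 hexp)

end Pool.Agent.DD
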