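import Pool.Agent.helper12.DD.Spec2

set_option autoImplicit false

open Pool.Agent.helper49.Blk

namespace Pool.Agent.DD

theorem IQA (hCHQ : CHQ_stmt) (hIQC : IQC_stmt) : IQA_stmt := by
  intro p q m hp hq hqp hqm K W E _ _ _ _ _ κ ω V₀ hT M χ χ' d hB
  obtain ⟨-, -, hrad⟩ := hCHQ p q hp hq hqp K W κ hT.κinj hT.κnor hT.card
  have hinj : Function.Injective (cW κ) :=
    List.map_injective_iff.2 (Subgroup.map_injective hT.κinj)
  have hset : {C' : List (Subgroup W) | Radical p C'} =
      cW κ '' {C : List (Subgroup K) | Radical p C} := by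
    ext C'
    change Radical p C' ↔ _
    rw [hrad C']
    constructor
    · rintro ⟨C, h1, h2⟩
      exact ⟨C, h1, h2.symm⟩
    · rintro ⟨C, h1, h2⟩
      exact ⟨C, h1, h2.symm⟩
  have hfin : {C : List (Subgroup K) | Radical p C}.Finite := (FIN K p).1
  unfold altQ
  rw [hset, finsum_mem_image hinj.injOn, finsum_mem_eq_finite_toFinset_sum _ hfin,
    finsum_mem_eq_finite_toFinset_sum _ hfin, finsum_mem_eq_finite_toFinset_sum _ hfin,
    Finset.mul_sum, Finset.mul_sum, ← Finset.sum_add_distrib]
  apply Finset.sum_congr rfl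
  intro C hC
  have hC' : Radical p C := by simpa using hC
  have h := hIQC p q m hp hq hqp hqm K W E κ ω V₀ hT M χ χ' d C (hB C hC')
  rw [h, List.length_map]
  ring

end Pool.Agent.DD
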