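import Pool.Agent.helper12.DW.VTW
import Pool.Agent.helper12.DW.Fin
import Pool.Agent.helper6.DW.PWF
import Pool.Agent.helper11.DW.FNE
import Pool.Agent.helper13.DW.BLC
import Pool.Agent.helper13.DW.ZPN
import Pool.Agent.helper14.DW.PWR
import Pool.Agent.helper16.DW.BVV
import Pool.Agent.helper18.DW.TFC
import Pool.Agent.helper19.DW.TPR
import Pool.Agent.helper20.DW.MXU
import Pool.Agent.helper21.DW.ZBL
import Pool.Agent.helper22.DW.SQA
import Pool.Agent.helper25.DW.TIS
import Pool.Agent.helper28.DW.SQC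
import Pool.Agent.helper30.DW.BVW
import Pool.Agent.helper32.DW.CLN
import Pool.Agent.helper33.DW.CLE
import Pool.Agent.helper12.DW.IQA
import Pool.Agent.helper34.DW.TOW
import Pool.Agent.helper38.DW.EXC
import Pool.Agent.helper43.DW.TOP
import Pool.Agent.helper46.DW.CLS
import Pool.Agent.helper51.DW.TRP
import Pool.Agent.helper54.DW.CHQ
import Pool.Agent.helper57.DW.RES
import Pool.Agent.helper59.DW.NIL
import Pool.Agent.helper60.DW.CLB
import Pool.Agent.helper61.DW.TIR
import Pool.Agent.helper63.DW.BHH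
import Pool.Agent.helper64.DW.CLA
import Pool.Agent.helper73.DW.LAM
import Pool.Agent.helper77.DW.LAL
import Pool.Agent.helper78.DW.IQC
import Pool.Agent.helper82.DW.TNC
import Pool.Agent.helper89.DW.TOM
import Pool.Agent.helper90.DW.STS
import Pool.Agent.helper91.DW.SQB
import Pool.Agent.helper92.DW.AL0
import Pool.Agent.helper97.DW.OBF
import Pool.Agent.helper99.DW.INF

/-!
# Stage 2: assembly of the modules
-/

set_option autoImplicit false

open Pool.Agent.helper49.Blk

namespace Pool.Agent.DD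

theorem all_TIS : TIS_stmt := TIS TIR
theorem all_RES : RES_stmt := RES STS
theorem all_MXU : MXU_stmt := MXU all_RES
theorem all_ZPN : ZPN_stmt := ZPN NIL
theorem all_AL0 : AL0_stmt := AL0 all_ZPN ZBL
theorem all_PWF : PWF_stmt := PWF TPR TNC all_TIS TFC STS TOW
theorem all_PWR : PWR_stmt := PWR TRP
theorem all_CLA : CLA_stmt := CLA LAM CLE CLS
theorem all_CLB : CLB_stmt := CLB LAM CLE CLS
theorem all_CLN : CLN_stmt := CLN all_CLA all_CLB
theorem all_SQA : SQA_stmt := SQA STS all_CLA CHQ TRI IRF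
theorem all_SQB : SQB_stmt := SQB STS all_CLB CHQ
theorem all_SQC : SQC_stmt := SQC STS CHQ
theorem all_IQC : IQC_stmt := IQC CHQ all_CLN CLE all_CLA all_CLB all_SQA all_SQB all_SQC TRI IRF
theorem all_IQA : IQA_stmt := IQA CHQ all_IQC
theorem all_BVW : BVW_stmt := BVW BVV
theorem all_OBF : OBF_stmt := OBF CLS
theorem all_BHH : BHH_stmt := BHH CHQ TPR TNC all_TIS TOM all_OBF all_BVW BVV LAL INF
theorem all_EXC : EXC_stmt := EXC TIR all_CLA

/-- Not all nonzero cases are `Single`. -/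
theorem all_ASM {p : ℕ} (hp : p.Prime) {M : Ideal (integralClosure ℤ ℂ)} (hM : M.IsMaximal)
    (hpM : (p : integralClosure ℤ ℂ) ∈ M)
    (H : ∀ X : Case p M, (∀ d, X.alt d = 0) ∨ X.Single) (X : Case p M) (d : ℕ) :
    X.alt d = 0 :=
  ASM FNE all_MXU BLC all_AL0 TOP all_PWR TOW all_PWF CHQ all_IQA all_BHH all_EXC p hp M hM hpM H
    X d

/-- A failure of Dade's conjecture gives a case with finite `E`, `U = E` and a top coefficient of
absolute value at least `2`. -/
theorem V2 {p : ℕ} (hp : p.Prime) {M : Ideal (integralClosure ℤ ℂ)} (hM : M.IsMaximal)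
    (hpM : (p : integralClosure ℤ ℂ) ∈ M) (hex : ∃ (X : Case p M) (d : ℕ), X.alt d ≠ 0) :
    ∃ Y : Case p M, Finite Y.E ∧ Y.U = ⊤ ∧ ∃ D : ℕ, 2 ≤ |Y.alt D| ∧ ∀ d, D < d → Y.alt d = 0 :=
  VTW FNE all_MXU BLC all_AL0 TOP all_PWR TOW all_PWF CHQ all_IQA all_BHH all_EXC p hp M hM hpM
    hex

end Pool.Agent.DD
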