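import Pool.Agent.helper12.DW.ASM

/-!
# Stage 2: a failure of Dade's conjecture with a large top coefficient
-/

set_option autoImplicit false

open Pool.Agent.helper49.Blk

namespace Pool.Agent.DD

/-- The arithmetic at the end. -/
theorem VTW_arith (q : ℕ) (hq : 3 ≤ q) (u v w e : ℤ) (he : e = 1 ∨ e = -1)
    (hu : u = 0 ∨ u = 1 ∨ u = -1) (hw : w = 0 ∨ w = 1 ∨ w = -1)
    (h1 : u + v = e) (h2 : (w : ℚ) = q * u + 1 / q * v) : False := by
  have hq0 : (q : ℚ) ≠ 0 := by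
    have : q ≠ 0 := by omega
    exact_mod_cast this
  have h3 : (q : ℚ) * w = q * q * u + v := by
    rw [h2]
    field_simp
  have h4 : (q : ℤ) * w = q * q * u + v := by exact_mod_cast h3
  have hq2 : (3 : ℤ) ≤ q := by exact_mod_cast hq
  have hv : v = e - u := by omega
  subst hv
  rcases he with he | he <;> rcases hu with hu | hu | hu <;>
    rcases hw with hw | hw | hw <;> subst he hu hw <;> first | omega | nlinarith

theorem VTW_arith2 (q : ℕ) (hq : 3 ≤ q) (u v w : ℤ) (hu : u = 0 ∨ u = 1 ∨ u = -1)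
    (h1 : u + v = 0) (h2 : (w : ℚ) = q * u + 1 / q * v) : u = 0 := by
  have hq0 : (q : ℚ) ≠ 0 := by
    have : q ≠ 0 := by omega
    exact_mod_cast this
  have h3 : (q : ℚ) * w = q * q * u + v := by
    rw [h2]
    field_simp
  have h4 : (q : ℤ) * w = q * q * u + v := by exact_mod_cast h3
  have hq2 : (3 : ℤ) ≤ q := by exact_mod_cast hq
  have hv : v = -u := by omega
  subst hv
  rcases hu with hu | hu | hu
  · exact hu
  · exfalso
    subst hu
    have h5 : (q : ℤ) ∣ 1 := ⟨q - w, by linarith⟩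
    have := Int.le_of_dvd one_pos h5
    omega
  · exfalso
    subst hu
    have h5 : (q : ℤ) ∣ 1 := ⟨w + q, by linarith⟩
    have := Int.le_of_dvd one_pos h5
    omega

/-- A nonzero case has a top coefficient. -/
theorem VTW_top {p : ℕ} {M : Ideal (integralClosure ℤ ℂ)} [Fact p.Prime] (Y : Case p M) (N : ℕ)
    (h : ∃ d, N < d ∧ Y.alt d ≠ 0) : ∃ a, N < a ∧ Y.alt a ≠ 0 ∧ ∀ d, a < d → Y.alt d = 0 := by
  classical
  obtain ⟨d₀, hd₀, h0⟩ := h
  have hle : ∀ d, Y.alt d ≠ 0 → d ≤ Y.vp := by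
    intro d hd
    by_contra hcon
    exact hd (Y.alt_zero_of_gt d (by omega))
  let a := Nat.findGreatest (fun d => Y.alt d ≠ 0) Y.vp
  have ha : Y.alt a ≠ 0 := Nat.findGreatest_spec (P := fun d => Y.alt d ≠ 0) (hle d₀ h0) h0
  have had : d₀ ≤ a := Nat.le_findGreatest (hle d₀ h0) h0
  refine ⟨a, by omega, ha, fun d hd => ?_⟩
  by_contra hcon
  have := Nat.le_findGreatest (P := fun d => Y.alt d ≠ 0) (hle d hcon) hcon
  change d ≤ a at this
  omega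

theorem VTW_poly {p : ℕ} {M : Ideal (integralClosure ℤ ℂ)} [Fact p.Prime] (Y : Case p M) (a : ℕ)
    (ha : Y.alt a ≠ 0) (h : ∀ d, a < d → Y.alt d = 0) (q : ℕ) :
    (Y.poly ^ q).coeff (q * a) = Y.alt a ^ q ∧ ∀ d, q * a < d → (Y.poly ^ q).coeff d = 0 := by
  have hdeg : Y.poly.natDegree = a := by
    apply le_antisymm
    · rw [Polynomial.natDegree_le_iff_coeff_eq_zero]
      intro N hN
      rw [Y.poly_coeff]
      exact h N hN
    · apply Polynomial.le_natDegree_of_ne_zero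
      rw [Y.poly_coeff]
      exact ha
  constructor
  · conv_lhs => rw [← hdeg]
    rw [Polynomial.coeff_pow_mul_natDegree, Polynomial.leadingCoeff, hdeg, Y.poly_coeff]
  · intro d hd
    apply Polynomial.coeff_eq_zero_of_natDegree_lt
    refine lt_of_le_of_lt Polynomial.natDegree_pow_le ?_
    rw [hdeg]
    exact hd

/-- If some alternating sum is not zero, then there is a case with finite `E`, `U = E` and a top
coefficient of absolute value at least `2`. -/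
theorem VTW (hFNE : FNE_stmt) (hMXU : MXU_stmt) (hBLC : BLC_stmt) (hAL0 : AL0_stmt)
    (hTOP : TOP_stmt) (hPWR : PWR_stmt) (hTOW : TOW_stmt) (hPWF : PWF_stmt) (hCHQ : CHQ_stmt)
    (hIQA : IQA_stmt) (hBHH : BHH_stmt) (hEXC : EXC_stmt)
    (p : ℕ) (hp : p.Prime) (M : Ideal (integralClosure ℤ ℂ)) (hM : M.IsMaximal)
    (hpM : (p : integralClosure ℤ ℂ) ∈ M) (hex : ∃ (X : Case p M) (d : ℕ), X.alt d ≠ 0) :
    ∃ Y : Case p M, Finite Y.E ∧ Y.U = ⊤ ∧ ∃ D : ℕ, 2 ≤ |Y.alt D| ∧ ∀ d, D < d → Y.alt d = 0 := by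
  have : Fact p.Prime := ⟨hp⟩
  by_contra hcon
  have H : ∀ Y : Case p M, Finite Y.E → Y.U = ⊤ → ∀ D, (∀ d, D < d → Y.alt d = 0) →
      Y.alt D = 0 ∨ Y.alt D = 1 ∨ Y.alt D = -1 := by
    intro Y hY1 hY2 D hD
    by_contra h
    apply hcon
    refine ⟨Y, hY1, hY2, D, ?_, hD⟩
    rw [le_abs]
    by_contra h'
    omega
  obtain ⟨X, d, hX⟩ := hex
  have h1 : altQ p M X.ι X.χ d X.U ≠ 0 := by
    rw [← X.alt_eq d]
    exact_mod_cast hX
  -- finite `E`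
  obtain ⟨E', _, _, ι', U', hi', hn', hE'⟩ :=
    hFNE X.G X.E X.ι X.inj X.nor p M X.χ X.U ⟨d, h1⟩
  -- `U = E`
  obtain ⟨U₁, hU₁, d₁, h2⟩ := hMXU X.G E' ι' hi' hn' p M X.χ ⟨U', d, by rw [hE' d]; exact h1⟩
  set ι₁ : X.G →* U₁ := ι'.codRestrict U₁ hU₁ with hι₁
  have hi₁ : Function.Injective ι₁ := by
    intro x y hxy
    exact hi' (congrArg Subtype.val hxy)
  have hn₁ : ι₁.range.Normal := by
    constructor
    rintro _ ⟨x, rfl⟩ g
    obtain ⟨y, hy⟩ := hn'.conj_mem _ ⟨x, rfl⟩ (g : E')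
    exact ⟨y, Subtype.ext hy⟩
  -- a member of positive defect
  obtain ⟨χ₁, ⟨hχ₁, hB⟩, n, hn, hnp⟩ := X.pos
  obtain ⟨d₀, hd₀, hdef⟩ := ASM_defc p χ₁ n hn hnp
  have h3 : altQ p M ι₁ χ₁ d₁ ⊤ ≠ 0 := by
    rw [← hBLC X.G U₁ ι₁ p M X.χ χ₁ hB]
    exact h2
  have hpos₁ := ASM_pos p M χ₁ hχ₁ d₀ hd₀ hdef
  let Y : Case p M := ASM_mk ι₁ hi₁ hn₁ X.op χ₁ hχ₁ hpos₁ ⊤
  have hYE : Finite Y.E := inferInstanceAs (Finite U₁)
  have hY1 : Y.alt d₁ ≠ 0 := by
    intro h0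
    apply h3
    have := Y.alt_eq d₁
    rw [h0] at this
    exact_mod_cast this.symm
  have hY0 : Y.alt 0 = 0 := by
    have h0 := hAL0 p hp M hM hpM X.G U₁ ι₁ X.op χ₁ hχ₁ hpos₁ ⊤
    have h5 : (Y.alt 0 : ℚ) = 0 := (Y.alt_eq 0).trans h0
    exact_mod_cast h5
  obtain ⟨a, ha0, haY, haT⟩ := VTW_top Y 0 ⟨d₁, by
    rcases Nat.eq_zero_or_pos d₁ with h | h
    · rw [h] at hY1
      exact absurd hY0 hY1
    · exact h, hY1⟩
  have ha : Y.alt a = 1 ∨ Y.alt a = -1 := by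
    rcases H Y hYE rfl a haT with h | h
    · exact absurd h haY
    · exact h
  -- the prime `q`
  obtain ⟨q, hqge, hq⟩ :=
    Nat.exists_infinite_primes (Nat.card U₁ + p + padicValNat p (Nat.card X.G) + 1)
  have : Fact q.Prime := ⟨hq⟩
  have : NeZero q := ⟨hq.ne_zero⟩
  have hp2 : 2 ≤ p := hp.two_le
  let Q : Type := Multiplicative (ZMod q)
  have hQc : Nat.card Q = q := by
    change Nat.card (Multiplicative (ZMod q)) = q
    rw [Nat.card_congr Multiplicative.toAdd, Nat.card_zmod]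
  have hQp : (Nat.card Q).Prime := by rw [hQc]; exact hq
  have hfW : Finite (Wr X.G Q) := ASM_fin X.G Q
  have hfW' : Finite (Wr U₁ Q) := ASM_fin U₁ Q
  have hUc : 0 < Nat.card U₁ := Nat.card_pos
  have hcop : Nat.Coprime (Nat.card Q) (Nat.card U₁) := by
    rw [hQc]
    exact (Nat.Prime.coprime_iff_not_dvd hq).2 (Nat.not_dvd_of_pos_of_lt hUc (by omega))
  have hqp : Nat.card Q ≠ p := by rw [hQc]; omega
  have hvp : padicValNat p (Nat.card X.G) < Nat.card Q := by rw [hQc]; omega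
  obtain ⟨hirrK, hdefK, χ', hχ', hres, hdefW⟩ := hEXC p hp X.G Q hQp hqp χ₁ hχ₁
  have htow := hTOW X.G U₁ ι₁ hn₁ hi₁ Q hQp hcop
  have hq3 : 3 ≤ q := by omega
  have hqd : 1 ≤ Nat.card Q * d₀ := by
    rw [hQc]
    nlinarith
  -- the cases
  have hKinj : Function.Injective ((wι ι₁ hn₁ Q).comp (κι X.G Q)) :=
    htow.ωinj.comp htow.κinj
  let K1 : Case p M := ASM_mk ((wι ι₁ hn₁ Q).comp (κι X.G Q)) hKinj htow.ωκnor
    (hTOP X.G Q p X.op) (tpow Q χ₁) hirrK (ASM_pos p M _ hirrK _ hqd (hdefK d₀ hdef)) ⊤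
  let K2 : Case p M := ASM_mk ((wι ι₁ hn₁ Q).comp (κι X.G Q)) hKinj htow.ωκnor
    (hTOP X.G Q p X.op) (tpow Q χ₁) hirrK (ASM_pos p M _ hirrK _ hqd (hdefK d₀ hdef))
    (V0 ι₁ hn₁ Q)
  have hopW : IsOp p (⊤ : Subgroup (Wr X.G Q)) ⊥ := by
    refine ((hCHQ p (Nat.card Q) hp hQp hqp (Q → X.G) (Wr X.G Q) (κι X.G Q) htow.κinj htow.κnor
      htow.card).1 ⊤ ⊥).2 ⟨⊥, ?_, ?_⟩
    · rw [Subgroup.map_bot]
    · rw [Subgroup.comap_top]
      exact hTOP X.G Q p X.op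
  let W1 : Case p M := ASM_mk (wι ι₁ hn₁ Q) htow.ωinj htow.ωnor hopW χ' hχ'
    (ASM_pos p M _ hχ' _ hqd (hdefW d₀ hdef)) ⊤
  have hK1E : Finite K1.E := inferInstanceAs (Finite (WE ι₁ hn₁ Q))
  have hW1E : Finite W1.E := inferInstanceAs (Finite (WE ι₁ hn₁ Q))
  -- the formulas for `d ≥ q`
  have hqd1 : Nat.card Q ≤ Nat.card Q * d₀ := Nat.le_mul_of_pos_right _ hd₀
  have hcard : Fintype.card Q = (q - 1) + 1 := by
    rw [← Nat.card_eq_fintype_card, hQc]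
    omega
  have e1 : q - 1 + 1 = q := by omega
  have F1 : ∀ d, q ≤ d → (W1.alt d : ℚ) = q * (K1.alt d : ℚ) + 1 / q * (K2.alt d : ℚ) := by
    intro d hd
    have f1 : altQ p M (wι ι₁ hn₁ Q) χ' d ⊤ =
        (Nat.card Q : ℚ) * altQ p M ((wι ι₁ hn₁ Q).comp (κι X.G Q)) (tpow Q χ₁) d ⊤ +
        1 / (Nat.card Q : ℚ) *
          altQ p M ((wι ι₁ hn₁ Q).comp (κι X.G Q)) (tpow Q χ₁) d (V0 ι₁ hn₁ Q) :=
      hIQA p (Nat.card Q) (Nat.card U₁) hp hQp hqp hcop (Q → X.G) (Wr X.G Q) (WE ι₁ hn₁ Q)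
        (κι X.G Q) (wι ι₁ hn₁ Q) (V0 ι₁ hn₁ Q) htow M (tpow Q χ₁) χ' d
        (fun C hC φ hφ ψ hψ hdφ hov => hBHH p hp M hM hpM X.G Q hQp hqp hvp χ₁ hχ₁ χ' hχ' hres
          (Nat.card Q * d₀) (hdefW d₀ hdef) hqd1 d (by rw [hQc]; exact hd) C hC φ hφ ψ hψ hdφ
          hov)
    rw [hQc] at f1
    rw [K1.alt_eq, K2.alt_eq, W1.alt_eq]
    exact f1
  have F2 : ∀ d, K1.alt d + K2.alt d = (Y.poly ^ q).coeff d := by
    intro d
    have f2 := hPWF p hp M X.G U₁ ι₁ hn₁ hi₁ Q hQp hcop χ₁ d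
    have f3 := hPWR p M Y rfl (q - 1) Q hcard d
    rw [e1] at f3
    have k1 : ((K1.alt d + K2.alt d : ℤ) : ℚ) = ((Y.poly ^ q).coeff d : ℚ) := by
      push_cast
      rw [K1.alt_eq, K2.alt_eq]
      exact f2.trans f3
    exact_mod_cast k1
  obtain ⟨hP1, hP2⟩ := VTW_poly Y a haY haT q
  have hqa : q ≤ q * a := Nat.le_mul_of_pos_right _ ha0
  -- no coefficient above `q a`
  have hK1top : ∀ d, q * a < d → K1.alt d = 0 := by
    by_contra hne
    push Not at hne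
    obtain ⟨d, hd, hne⟩ := hne
    obtain ⟨e, he, hne', htop⟩ := VTW_top K1 (q * a) ⟨d, hd, hne⟩
    have hv := H K1 hK1E rfl e htop
    have h4 := F1 e (by omega)
    have h5 := F2 e
    rw [hP2 e he] at h5
    exact hne' (VTW_arith2 q hq3 _ _ _ hv h5 h4)
  have hW1top : ∀ d, q * a < d → W1.alt d = 0 := by
    intro d hd
    have h4 := F1 d (by omega)
    have h5 := F2 d
    rw [hP2 d hd, hK1top d hd, zero_add] at h5
    rw [hK1top d hd, h5] at h4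
    simp only [Int.cast_zero, mul_zero, add_zero] at h4
    exact_mod_cast h4
  have hYq : (Y.poly ^ q).coeff (q * a) = 1 ∨ (Y.poly ^ q).coeff (q * a) = -1 := by
    rw [hP1]
    rcases ha with ha | ha
    · left
      rw [ha, one_pow]
    · rw [ha]
      rcases Nat.even_or_odd q with h3 | h3
      · left
        exact h3.neg_one_pow
      · right
        exact h3.neg_one_pow
  exact VTW_arith q hq3 _ _ _ _ hYq (H K1 hK1E rfl _ hK1top) (H W1 hW1E rfl _ hW1top)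
    (F2 (q * a)) (F1 (q * a) hqa)

end Pool.Agent.DD
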